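import Pool.Agent.Lib.MP_93b649_gt.RZ2

/-!
# MP_93b649_gt, Q1: full answer, the statement is FALSE (complex dimension 2)

There are simply connected complete Kähler manifolds of negative sectional curvature satisfying the Ricci
bound of Q1 (for every value of the constant `A`, and even with `1 + ρ²` replaced by `(1 + ρ)^(1 + ε)`) on which
every bounded holomorphic function is constant.

Idea: `M ⊂ ℂ²` is the Siegel domain `Y = -2 Re W - |z|² > 0` (the ball, potential `-log Y`) with thin arms attached along
the complex lines `z = p_k`; ball and arms are the same Calabi metric `ψ(Re W) - log (1 - |t|² E(Re W))`, `t = z - p_k`, in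
suitable affine coordinates, so that they fit together exactly. On an arm the mixed curvature decays like
`ρ^(-1-1/m)`, the curvature of the line decays faster. A bounded holomorphic function is constant on every line
`{p_k} × ℂ`, and by Jensen's inequality and the Phragmén-Lindelöf principle it does not depend on `W` at all, since the
number of the `p_k` in a disc of radius `r` grows like `r³`.
-/

namespace Pool.Agent.Results.MP_93b649_gt.RicciDecayCounterexample

open Pool.Agent.KH

theorem result (ε A : ℝ) (hε : 0 < ε) (hA : 0 < A) :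
    ∃ (M : Set (ℂ × ℂ)) (g : ℂ × ℂ → ℂ × ℂ → ℂ × ℂ → ℝ) (p : ℂ × ℂ),
      IsOpen M ∧ p ∈ M ∧ SimplyConnectedSpace M ∧ IsKahler M g ∧ IsCompleteMetric M g ∧
        NegativelyCurved M g ∧
        RicciLE M g (fun x => -(A / (1 + riemannianDist M g p x) ^ (1 + ε))) ∧
        RicciLE M g (fun x => -(A / (1 + riemannianDist M g p x ^ 2))) ∧
        BoundedHolomorphicConstant M := by
  obtain ⟨M, g, p, h1, h2, h3, h4, h5, h6, h7, h8, h9⟩ := main (min ε 1) (2 * A) (lt_min hε one_pos) (by positivity)
  refine ⟨M, g, p, h1, h2, h4, h5, h6, h7, ?_, ?_, h9⟩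
  · intro x hx e he v
    refine (h8 x hx e he v).trans ?_
    have hρ : 0 ≤ riemannianDist M g p x := riemannianDist_nonneg p x
    have hg : 0 ≤ g x v v := by
      rcases eq_or_ne v 0 with rfl | hv
      · have := h5.smul x hx 0 0 0
        simp at this
        exact this.ge
      · exact (h5.pos x hx v hv).le
    apply mul_le_mul_of_nonneg_right _ hg
    rw [neg_le_neg_iff]
    have h10 : (1 + riemannianDist M g p x) ^ (1 + min ε 1) ≤ (1 + riemannianDist M g p x) ^ (1 + ε) :=
      Real.rpow_le_rpow_of_exponent_le (by linarith) (by linarith [min_le_left ε 1])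
    have h11 : 0 < (1 + riemannianDist M g p x) ^ (1 + min ε 1) := Real.rpow_pos_of_pos (by linarith) _
    calc A / (1 + riemannianDist M g p x) ^ (1 + ε) ≤ A / (1 + riemannianDist M g p x) ^ (1 + min ε 1) :=
          div_le_div_of_nonneg_left hA.le h11 h10
      _ ≤ 2 * A / (1 + riemannianDist M g p x) ^ (1 + min ε 1) := by
          apply div_le_div_of_nonneg_right _ h11.le
          linarith
  · intro x hx e he v
    refine (h8 x hx e he v).trans ?_
    have hρ : 0 ≤ riemannianDist M g p x := riemannianDist_nonneg p x
    have hg : 0 ≤ g x v v := by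
      rcases eq_or_ne v 0 with rfl | hv
      · have := h5.smul x hx 0 0 0
        simp at this
        exact this.ge
      · exact (h5.pos x hx v hv).le
    apply mul_le_mul_of_nonneg_right _ hg
    rw [neg_le_neg_iff]
    set ρ := riemannianDist M g p x
    have h10 : (1 + ρ) ^ (1 + min ε 1) ≤ (1 + ρ) ^ (2 : ℝ) :=
      Real.rpow_le_rpow_of_exponent_le (by linarith) (by linarith [min_le_right ε 1])
    have h11 : 0 < (1 + ρ) ^ (1 + min ε 1) := Real.rpow_pos_of_pos (by linarith) _
    have h12 : (1 + ρ) ^ (2 : ℝ) = (1 + ρ) ^ 2 := by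
      rw [← Real.rpow_natCast]; norm_num
    rw [h12] at h10
    rw [div_le_div_iff₀ (by positivity) h11]
    have h13 : (1 + ρ) ^ 2 ≤ 2 * (1 + ρ ^ 2) := by nlinarith [sq_nonneg (1 - ρ)]
    nlinarith

end Pool.Agent.Results.MP_93b649_gt.RicciDecayCounterexample
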